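import Pool.Agent.Helper819.Reg5

/-!
For `N ≥ 2`, `d ≥ 2` the singular points of `M_d^N` are the classes of the maps with nontrivial
automorphism group.
-/

namespace Pool.Agent.Results.MP_807a54_ag.SingularLocus

open Pool.Agent.Helper819.Dyn

theorem result (k : Type) [Field k] [IsAlgClosed k] [CharZero k] (N d : ℕ) (hN : 2 ≤ N)
    (hd : 2 ≤ d) (f : EndTuple k N d) :
    IsLocalRing (localRing k N d (cls f)) ∧ IsNoetherianRing (localRing k N d (cls f)) ∧
      (cls f ∈ singularLocus k N d ↔ ¬ AutTrivial f.1) := by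
  have hNd : 0 < N + d := by omega
  have h1 := noeth_Of hd (nz_co f)
  refine ⟨(localRingEquiv hNd hd f).isLocalRing,
    isNoetherianRing_of_ringEquiv _ (localRingEquiv hNd hd f), mem_singularLocus_iff hN hd f⟩

end Pool.Agent.Results.MP_807a54_ag.SingularLocus
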